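import Mathlib

namespace Pool.Agent.Results.MP_785afb_co.TwinFamily

/-- The generalized Johnson graph `J(n,r,i)`. -/
def J (n r i : ℕ) : SimpleGraph {s : Finset (Fin n) // s.card = r} where
  Adj A B := A ≠ B ∧ (A.1 ∩ B.1).card = i
  symm := ⟨fun A B h => ⟨h.1.symm, by rw [Finset.inter_comm]; exact h.2⟩⟩
  loopless := ⟨fun A h => h.1 rfl⟩

/-- `l` is the vertex sequence of an induced path of `G`. -/
def IsInducedPath {V : Type} (G : SimpleGraph V) (l : List V) : Prop :=
  l.Nodup ∧ ∀ (i j : ℕ) (hi : i < l.length) (hj : j < l.length), G.Adj l[i] l[j] ↔ (i + 1 = j ∨ j + 1 = i)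

/-- The monophonic interval `J_G(u,v)`. -/
def interval {V : Type} (G : SimpleGraph V) (u v : V) : Set V :=
  {w | ∃ l : List V, IsInducedPath G l ∧ l.head? = some u ∧ l.getLast? = some v ∧ w ∈ l}

/-- A monophonic set. -/
def Monophonic {V : Type} (G : SimpleGraph V) (S : Set V) : Prop :=
  ∀ w, ∃ x ∈ S, ∃ y ∈ S, w ∈ interval G x y

variable {V : Type} (G : SimpleGraph V)

lemma interval_symm (u v w : V) (h : w ∈ interval G u v) : w ∈ interval G v u := by
  obtain ⟨l, ⟨h1, h2⟩, h3, h4, h5⟩ := h
  refine ⟨l.reverse, ⟨List.nodup_reverse.2 h1, ?_⟩, ?_, ?_, by simpa using h5⟩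
  · intro i j hi hj
    rw [List.length_reverse] at hi hj
    rw [List.getElem_reverse, List.getElem_reverse, h2]
    omega
  · rw [List.head?_reverse, h4]
  · rw [List.getLast?_reverse, h3]

lemma interval_self (u w : V) (h : w ∈ interval G u u) : w = u := by
  obtain ⟨l, ⟨h1, _⟩, h3, h4, h5⟩ := h
  cases l with
  | nil => simp at h5
  | cons a l =>
    simp at h3
    subst h3
    cases l with
    | nil => simpa using h5
    | cons b l =>
      exfalso
      have : (a :: b :: l).getLast? = (b :: l).getLast? := by simp [List.getLast?_cons_cons]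
      rw [this] at h4
      have hm : a ∈ b :: l := List.mem_of_getLast? h4
      exact (List.nodup_cons.1 h1).1 hm

/-- A false twin of the first vertex of an induced path can only be its last vertex. -/
lemma twin_last (x x' y : V) (hne : x ≠ x') (ht : ∀ z, G.Adj x z ↔ G.Adj x' z) (h : x' ∈ interval G x y) :
    x' = y := by
  obtain ⟨l, ⟨h1, h2⟩, h3, h4, h5⟩ := h
  obtain ⟨k, hk, rfl⟩ := List.mem_iff_getElem.1 h5
  have h0 : 0 < l.length := by omega
  have e0 : l[0] = x := by
    rw [List.head?_eq_getElem?, List.getElem?_eq_getElem h0] at h3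
    simpa using h3
  have hk0 : k ≠ 0 := by
    rintro rfl
    exact hne e0.symm
  by_cases hl : k + 1 < l.length
  · exfalso
    have a1 : G.Adj l[k] l[k + 1] := (h2 k (k + 1) hk hl).2 (Or.inl rfl)
    have a2 : G.Adj x l[k + 1] := (ht _).2 a1
    rw [← e0] at a2
    have := (h2 0 (k + 1) h0 hl).1 a2
    omega
  · have : k = l.length - 1 := by omega
    rw [List.getLast?_eq_getElem?, List.getElem?_eq_getElem (by omega)] at h4
    have h6 : l[l.length - 1] = y := by simpa using h4
    subst this
    exact h6

/-- Between false twins, all induced paths have length two. -/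
lemma twin_interval (x x' w : V) (hne : x ≠ x') (ht : ∀ z, G.Adj x z ↔ G.Adj x' z) (h : w ∈ interval G x x') :
    w = x ∨ w = x' ∨ G.Adj x w := by
  obtain ⟨l, ⟨h1, h2⟩, h3, h4, h5⟩ := h
  obtain ⟨k, hk, rfl⟩ := List.mem_iff_getElem.1 h5
  have h0 : 0 < l.length := by omega
  have e0 : l[0] = x := by
    rw [List.head?_eq_getElem?, List.getElem?_eq_getElem h0] at h3
    simpa using h3
  have e1 : l[l.length - 1] = x' := by
    rw [List.getLast?_eq_getElem?, List.getElem?_eq_getElem (by omega)] at h4
    simpa using h4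
  rcases Nat.eq_zero_or_pos k with hk0 | hk0
  · subst hk0
    exact Or.inl e0
  · have hl1 : 1 < l.length := by omega
    have a1 : G.Adj l[0] l[1] := (h2 0 1 h0 hl1).2 (Or.inl rfl)
    have a2 : G.Adj l[l.length - 1] l[1] := by
      rw [e1]
      rw [e0] at a1
      exact (ht _).1 a1
    have a3 := (h2 (l.length - 1) 1 (by omega) hl1).1 a2
    have hlen : l.length = 3 ∨ l.length = 1 := by omega
    have hlen3 : l.length = 3 := by omega
    have hk2 : k = 1 ∨ k = l.length - 1 := by omega
    rcases hk2 with hk2 | hk2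
    · subst hk2
      rw [e0] at a1
      exact Or.inr (Or.inr a1)
    · subst hk2
      exact Or.inr (Or.inl e1)

theorem result : ∀ m : ℕ, 2 ≤ m → ¬ ∃ x y : {s : Finset (Fin (4 * m)) // s.card = 2 * m},
    Monophonic (J (4 * m) (2 * m) m) {x, y} := by
  rintro m hm ⟨x, y, h⟩
  -- complements
  have hcard : ∀ s : Finset (Fin (4 * m)), s.card = 2 * m → sᶜ.card = 2 * m := by
    intro s hs
    rw [Finset.card_compl, Fintype.card_fin, hs]
    omega
  have hsub : ∀ s t : Finset (Fin (4 * m)), t.card = 2 * m → (sᶜ ∩ t).card = 2 * m - (s ∩ t).card := by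
    intro s t ht
    have h1 : (sᶜ ∩ t).card + (s ∩ t).card = t.card := by
      rw [add_comm, ← Finset.card_union_of_disjoint]
      · congr 1
        ext a
        simp
        tauto
      · rw [Finset.disjoint_left]
        intro a ha hb
        simp at ha hb
        exact hb.1 ha.1
    omega
  let c : {s : Finset (Fin (4 * m)) // s.card = 2 * m} → {s : Finset (Fin (4 * m)) // s.card = 2 * m} :=
    fun s => ⟨s.1ᶜ, hcard s.1 s.2⟩
  have hcne : ∀ s, s ≠ c s := by
    intro s hs
    have h1 : s.1 = s.1ᶜ := congrArg Subtype.val hs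
    have h2 : 0 < s.1.card := by rw [s.2]; omega
    obtain ⟨a, ha⟩ := Finset.card_pos.1 h2
    have : a ∈ s.1ᶜ := h1 ▸ ha
    rw [Finset.mem_compl] at this
    exact this ha
  have htw : ∀ s z, (J (4 * m) (2 * m) m).Adj s z ↔ (J (4 * m) (2 * m) m).Adj (c s) z := by
    intro s z
    have e1 := hsub s.1 z.1 z.2
    have e2 : (s.1 ∩ z.1).card ≤ z.1.card := Finset.card_le_card Finset.inter_subset_right
    rw [z.2] at e2
    constructor
    · rintro ⟨_, h2⟩
      have h3 : ((c s).1 ∩ z.1).card = m := by
        show (s.1ᶜ ∩ z.1).card = m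
        omega
      refine ⟨?_, h3⟩
      rintro rfl
      rw [Finset.inter_self, (c s).2] at h3
      omega
    · rintro ⟨_, h2⟩
      have h3 : (s.1 ∩ z.1).card = m := by
        have h4 : (s.1ᶜ ∩ z.1).card = m := h2
        omega
      refine ⟨?_, h3⟩
      rintro rfl
      rw [Finset.inter_self, s.2] at h3
      omega
  -- the complement of x forces y to be the complement
  have hy : c x = y := by
    obtain ⟨u, hu, v, hv, hw⟩ := h (c x)
    simp only [Set.mem_insert_iff, Set.mem_singleton_iff] at hu hv
    rcases hu with rfl | rfl <;> rcases hv with rfl | rfl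
    · exact absurd (interval_self _ _ _ hw).symm (hcne _)
    · exact twin_last _ _ _ _ (hcne _) (htw _) hw
    · exact twin_last _ _ _ _ (hcne _) (htw _) (interval_symm _ _ _ _ hw)
    · exact interval_self _ _ _ hw
  subst hy
  -- a vertex which is neither adjacent to x nor equal to x or its complement
  have hx1 : 0 < x.1.card := by rw [x.2]; omega
  obtain ⟨a, ha⟩ := Finset.card_pos.1 hx1
  have hx2 : 0 < (x.1ᶜ).card := by rw [hcard x.1 x.2]; omega
  obtain ⟨b, hb⟩ := Finset.card_pos.1 hx2
  rw [Finset.mem_compl] at hb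
  have hbe : b ∉ x.1.erase a := fun h => hb (Finset.mem_of_mem_erase h)
  have hwc : (insert b (x.1.erase a)).card = 2 * m := by
    rw [Finset.card_insert_of_notMem hbe, Finset.card_erase_of_mem ha, x.2]
    omega
  have hint : (x.1 ∩ insert b (x.1.erase a)).card = 2 * m - 1 := by
    have : x.1 ∩ insert b (x.1.erase a) = x.1.erase a := by
      ext z
      simp only [Finset.mem_inter, Finset.mem_insert, Finset.mem_erase]
      constructor
      · rintro ⟨h1, rfl | h2⟩
        · exact absurd h1 hb
        · exact h2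
      · intro h1
        exact ⟨h1.2, Or.inr h1⟩
    rw [this, Finset.card_erase_of_mem ha, x.2]
  have key : ∀ w : {s : Finset (Fin (4 * m)) // s.card = 2 * m}, w = x ∨ w = c x ∨
      (J (4 * m) (2 * m) m).Adj x w := by
    intro w
    obtain ⟨u, hu, v, hv, hw⟩ := h w
    simp only [Set.mem_insert_iff, Set.mem_singleton_iff] at hu hv
    rcases hu with rfl | rfl <;> rcases hv with rfl | rfl
    · exact Or.inl (interval_self _ _ _ hw)
    · exact twin_interval _ _ _ _ (hcne _) (htw _) hw
    · exact twin_interval _ _ _ _ (hcne _) (htw _) (interval_symm _ _ _ _ hw)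
    · exact Or.inr (Or.inl (interval_self _ _ _ hw))
  rcases key ⟨insert b (x.1.erase a), hwc⟩ with h1 | h1 | h1
  · have h2 : insert b (x.1.erase a) = x.1 := congrArg Subtype.val h1
    exact hb (h2 ▸ Finset.mem_insert_self _ _)
  · have h2 : insert b (x.1.erase a) = x.1ᶜ := congrArg Subtype.val h1
    rw [h2] at hint
    have : x.1 ∩ x.1ᶜ = ∅ := by simp
    rw [this] at hint
    simp at hint
    omega
  · have h2 : (x.1 ∩ insert b (x.1.erase a)).card = m := h1.2
    omega

end Pool.Agent.Results.MP_785afb_co.TwinFamily
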